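import Pool.Agent.H74.BTL.Targets

/-!
# Row BDF of the board `btl_modules`: the boundary operator
-/

set_option autoImplicit false

open scoped ENNReal RealInnerProductSpace
open Filter Topology

universe u

namespace Pool.Agent.H93.BTL

open Pool.Agent.H74.BTL

section

variable {G : Type*} [Group G] {I : Type*} [Fintype I]

theorem eqv_bd (s : I → G) : Eqv (bd s) := by
  intro g a
  ext ⟨x, w⟩
  rw [bd_apply, lt_apply, bd_apply]
  refine Finset.sum_congr rfl fun i _ => ?_
  rw [lt_apply, lt_apply, mul_assoc]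

theorem inv_Cf (s : I → G) : Pool.Agent.H74.BTL.Inv (Cf s) := by
  intro g a ha
  refine ⟨?_, by rw [eqv_bd, ha.2, map_zero]⟩
  refine (ha.1.image fun p : G × I => (g * p.1, p.2)).subset ?_
  rintro ⟨x, i⟩ hx
  refine ⟨(g⁻¹ * x, i), ?_, ?_⟩
  · rw [Function.mem_support] at hx ⊢
    rwa [lt_apply] at hx
  · simp

theorem bd_dl (s : I → G) (x : G) (i : I) :
    bd s (dl (x, i)) = dl (x * s i, ()) - dl (x, ()) := by
  classical
  ext ⟨y, w⟩
  rw [bd_apply, lp.coeFn_sub, Pi.sub_apply, Finset.sum_eq_single i]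
  · rw [dl_apply, dl_apply, dl_apply, dl_apply]
    have h1 : (y * (s i)⁻¹, i) = (x, i) ↔ (y, w) = (x * s i, ()) := by
      rw [Prod.mk.injEq, Prod.mk.injEq, mul_inv_eq_iff_eq_mul]
      simp
    have h2 : (y, i) = (x, i) ↔ (y, w) = (x, ()) := by
      rw [Prod.mk.injEq, Prod.mk.injEq]
      simp
    congr 1
    · by_cases h : (y, w) = (x * s i, ())
      · rw [if_pos (h1.2 h), if_pos h]
      · rw [if_neg fun h' => h (h1.1 h'), if_neg h]
    · by_cases h : (y, w) = (x, ())
      · rw [if_pos (h2.2 h), if_pos h]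
      · rw [if_neg fun h' => h (h2.1 h'), if_neg h]
  · intro j _ hj
    rw [dl_ne, dl_ne, sub_zero]
    · intro h; exact hj (Prod.mk.inj h).2
    · intro h; exact hj (Prod.mk.inj h).2
  · intro h; exact absurd (Finset.mem_univ i) h

theorem adjoint_bd (s : I → G) (f : L2 (G × Unit)) (x : G) (i : I) :
    (ContinuousLinearMap.adjoint (bd s) f : G × I → ℝ) (x, i) = f (x * s i, ()) - f (x, ()) := by
  rw [← inner_dl, ContinuousLinearMap.adjoint_inner_right, bd_dl, inner_sub_left, inner_dl,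
    inner_dl]

end

theorem pf_BDF : T_BDF.{u} := by
  intro G _ I _ s
  exact ⟨eqv_bd s, inv_Cf s, fun a ha => mem_kr.2 ha.2, bd_dl s, adjoint_bd s⟩

end Pool.Agent.H93.BTL
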