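import Pool.Agent.H74.BTL.Targets

/-!
# Row EQA of the board `btl_modules`: adjoints and projections are equivariant
-/

set_option autoImplicit false

open scoped ENNReal RealInnerProductSpace
open Filter Topology

universe u

namespace Pool.Agent.H93.BTL

open Pool.Agent.H74.BTL

section

variable {G : Type*} [Group G] {I J : Type*}

theorem lt_lt_inv (g : G) (v : L2 (G × I)) : lt g (lt g⁻¹ v) = v := by
  rw [← lt_mul, mul_inv_cancel, lt_one]

theorem lt_inv_lt (g : G) (v : L2 (G × I)) : lt g⁻¹ (lt g v) = v := by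
  rw [← lt_mul, inv_mul_cancel, lt_one]

theorem inner_lt_left (g : G) (v w : L2 (G × I)) :
    ⟪lt g⁻¹ v, w⟫ = (⟪v, lt g w⟫ : ℝ) := by
  rw [← inner_lt g (lt g⁻¹ v) w, lt_lt_inv]

theorem inner_lt_right (g : G) (v w : L2 (G × I)) :
    ⟪lt g v, w⟫ = (⟪v, lt g⁻¹ w⟫ : ℝ) := by
  rw [← inner_lt g v (lt g⁻¹ w), lt_lt_inv]

theorem eqv_adjoint {T : L2 (G × I) →L[ℝ] L2 (G × J)} (hT : Eqv T) :
    Eqv (ContinuousLinearMap.adjoint T) := by
  intro g w
  refine ext_inner_left ℝ fun v => ?_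
  rw [ContinuousLinearMap.adjoint_inner_right, ← inner_lt_left, ← hT,
    ← ContinuousLinearMap.adjoint_inner_right, inner_lt_left]

theorem inv_kr {T : L2 (G × I) →L[ℝ] L2 (G × J)} (hT : Eqv T) : Pool.Agent.H74.BTL.Inv (kr T) := by
  intro g v hv
  rw [mem_kr] at hv ⊢
  rw [hT, hv, map_zero]

theorem inv_closure {V : Submodule ℝ (L2 (G × I))} (hV : Pool.Agent.H74.BTL.Inv V) : Pool.Agent.H74.BTL.Inv V.topologicalClosure := by
  intro g v hv
  have h1 : v ∈ closure (V : Set (L2 (G × I))) := hv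
  exact map_mem_closure (lt g).continuous h1 fun w hw => hV g w hw

theorem inv_orthogonal {V : Submodule ℝ (L2 (G × I))} (hV : Pool.Agent.H74.BTL.Inv V) : Pool.Agent.H74.BTL.Inv Vᗮ := by
  intro g v hv
  rw [Submodule.mem_orthogonal] at hv ⊢
  intro w hw
  rw [← inner_lt_left]
  exact hv _ (hV g⁻¹ w hw)

theorem eqv_PR {V : Submodule ℝ (L2 (G × I))} (hV : Pool.Agent.H74.BTL.Inv V) : Eqv (PR V) := by
  intro g v
  refine Submodule.eq_starProjection_of_mem_orthogonal ?_ ?_
  · exact inv_closure hV g _ (Submodule.starProjection_apply_mem _ _)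
  · show lt g v - lt g (PR V v) ∈ _
    rw [← map_sub]
    exact inv_orthogonal (inv_closure hV) g _ (Submodule.sub_starProjection_mem_orthogonal _)

end

theorem pf_EQA : T_EQA.{u} := by
  intro G _ I J _ _
  refine ⟨fun T hT => eqv_adjoint hT, fun T hT => inv_kr hT, fun V hV =>
    ⟨inv_closure hV, inv_orthogonal hV, eqv_PR hV, fun g i => ?_⟩⟩
  have h1 := eqv_PR hV g (dl ((1 : G), i))
  rw [lt_dl, mul_one] at h1
  rw [h1, norm_lt]

end Pool.Agent.H93.BTL
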