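import Pool.Agent.H74.BTL.Targets

/-!
# Row MEA of the board `btl_modules`: the mean ergodic theorem for traces
-/

set_option autoImplicit false

open scoped ENNReal RealInnerProductSpace
open Filter Topology

universe u

namespace Pool.Agent.H93.BTL

open Pool.Agent.H74.BTL

theorem pf_MEA : T_MEA.{u} := by
  intro G _ I J _ _ S c hc hcS
  set T : L2 (G × I) →L[ℝ] L2 (G × I) := 1 - c • (ContinuousLinearMap.adjoint S ∘L S) with hT
  have hTx : ∀ x, T x = x - c • ContinuousLinearMap.adjoint S (S x) := fun x => rfl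
  have hnorm : ‖T‖ ≤ 1 := by
    refine ContinuousLinearMap.opNorm_le_bound _ zero_le_one fun x => ?_
    rw [one_mul]
    refine le_of_sq_le_sq ?_ (norm_nonneg _)
    rw [hTx, @norm_sub_sq_real, inner_smul_right, ContinuousLinearMap.adjoint_inner_right,
      real_inner_self_eq_norm_sq, norm_smul, Real.norm_of_nonneg hc.le]
    have h1 : ‖ContinuousLinearMap.adjoint S (S x)‖ ≤ ‖S‖ * ‖S x‖ := by
      have := (ContinuousLinearMap.adjoint S).le_opNorm (S x)
      rwa [LinearIsometryEquiv.norm_map] at this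
    have h2 : ‖ContinuousLinearMap.adjoint S (S x)‖ ^ 2 ≤ ‖S‖ ^ 2 * ‖S x‖ ^ 2 := by
      rw [← mul_pow]
      exact pow_le_pow_left₀ (norm_nonneg _) h1 2
    have h3 : (c * ‖ContinuousLinearMap.adjoint S (S x)‖) ^ 2 ≤ c * ‖S x‖ ^ 2 := by
      calc (c * ‖ContinuousLinearMap.adjoint S (S x)‖) ^ 2 =
            c ^ 2 * ‖ContinuousLinearMap.adjoint S (S x)‖ ^ 2 := by ring
        _ ≤ c ^ 2 * (‖S‖ ^ 2 * ‖S x‖ ^ 2) := by gcongr
        _ = (c * ‖S‖ ^ 2) * (c * ‖S x‖ ^ 2) := by ring
        _ ≤ 1 * (c * ‖S x‖ ^ 2) := by gcongr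
        _ = _ := by ring
    nlinarith [sq_nonneg ‖S x‖, mul_nonneg hc.le (sq_nonneg ‖S x‖)]
  have hker : T.eqLocus (1 : L2 (G × I) →L[ℝ] L2 (G × I)) = kr S := by
    ext x
    rw [LinearMap.mem_eqLocus, mem_kr]
    show T x = x ↔ S x = 0
    rw [hTx]
    constructor
    · intro h
      have h1 : c • ContinuousLinearMap.adjoint S (S x) = 0 := by
        have := sub_eq_self.1 h
        exact this
      have h2 : ContinuousLinearMap.adjoint S (S x) = 0 := (smul_eq_zero.1 h1).resolve_left hc.ne'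
      have h3 : ⟪x, ContinuousLinearMap.adjoint S (S x)⟫ = (0 : ℝ) := by rw [h2, inner_zero_right]
      rw [ContinuousLinearMap.adjoint_inner_right, real_inner_self_eq_norm_sq] at h3
      have h4 : ‖S x‖ = 0 := by
        exact pow_eq_zero_iff (two_ne_zero) |>.1 h3
      exact norm_eq_zero.1 h4
    · intro h
      rw [h, map_zero, smul_zero, sub_zero]
  have hclos : (kr S).topologicalClosure = kr S :=
    (isClosed_kr S).submodule_topologicalClosure_eq
  have hlim : ∀ x, Tendsto (birkhoffAverage ℝ T _root_.id · x) atTop (𝓝 (PR (kr S) x)) := by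
    intro x
    have h1 := ContinuousLinearMap.tendsto_birkhoffAverage_orthogonalProjection T hnorm x
    have h2 : ((T.eqLocus (1 : L2 (G × I) →L[ℝ] L2 (G × I))).orthogonalProjectionOnto x :
        L2 (G × I)) = PR (kr S) x := by
      symm
      refine Submodule.eq_starProjection_of_mem_orthogonal ?_ ?_
      · rw [hclos, ← hker]
        exact Subtype.coe_prop _
      · rw [hclos, ← hker]
        exact Submodule.sub_starProjection_mem_orthogonal _
    rwa [h2] at h1
  have hsum : Tendsto (fun n : ℕ => ∑ i, ⟪dl ((1 : G), i),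
      birkhoffAverage ℝ T _root_.id n (dl ((1 : G), i))⟫) atTop
      (𝓝 (∑ i, ⟪dl ((1 : G), i), PR (kr S) (dl ((1 : G), i))⟫)) := by
    refine tendsto_finsetSum _ fun i _ => ?_
    exact (tendsto_const_nhds).inner (hlim _)
  have hdm : ∑ i, ⟪dl ((1 : G), i), PR (kr S) (dl ((1 : G), i))⟫ = dm (kr S) := by
    unfold dm
    refine Finset.sum_congr rfl fun i _ => ?_
    have h1 := Submodule.starProjection_inner_eq_zero (K := (kr S).topologicalClosure)
      (dl ((1 : G), i)) (PR (kr S) (dl ((1 : G), i))) (Submodule.starProjection_apply_mem _ _)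
    have h2 : ⟪dl ((1 : G), i) - PR (kr S) (dl ((1 : G), i)), PR (kr S) (dl ((1 : G), i))⟫ =
      (0 : ℝ) := h1
    rw [inner_sub_left, real_inner_self_eq_norm_sq, sub_eq_zero] at h2
    exact h2
  rw [hdm] at hsum
  refine hsum.congr fun n => ?_
  rw [Finset.sum_comm, Finset.mul_sum]
  refine Finset.sum_congr rfl fun i _ => ?_
  rw [birkhoffAverage, birkhoffSum, inner_smul_right, inner_sum]
  congr 1
  refine Finset.sum_congr rfl fun k _ => ?_
  congr 1
  show (T^[k]) (dl ((1 : G), i)) = (T ^ k) (dl ((1 : G), i))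
  rw [FunLike.coe_pow_eq_iterate]

end Pool.Agent.H93.BTL
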