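import Pool.Agent.H93.BTL.BDF

/-!
# Row ORT of the board `btl_modules`: gradients are perpendicular to the flows
-/

set_option autoImplicit false

open scoped ENNReal RealInnerProductSpace
open Filter Topology

universe u

namespace Pool.Agent.H93.BTL

open Pool.Agent.H74.BTL

section

variable {G : Type*} [Group G] {I : Type*} [Fintype I]

theorem cf_perp (s : I → G) (h : G → ℝ) (dh : L2 (G × I))
    (hd : ∀ x i, dh (x, i) = h (x * s i) - h x) (a : L2 (G × I)) (ha : a ∈ Cf s) :
    ⟪a, dh⟫ = (0 : ℝ) := by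
  classical
  set F : Finset G := ha.1.toFinset.image Prod.fst with hF
  set Y : Finset G := F ∪ Finset.univ.biUnion fun i => F.image fun x => x * s i with hY
  let f : L2 (G × Unit) := ∑ y ∈ Y, h y • dl (y, ())
  have hf : ∀ y ∈ Y, (f : G × Unit → ℝ) (y, ()) = h y := by
    intro y hy
    show ((∑ y ∈ Y, h y • dl (y, ()) : L2 (G × Unit)) : G × Unit → ℝ) (y, ()) = h y
    rw [lp.coeFn_sum, Finset.sum_apply, Finset.sum_eq_single y]
    · rw [lp.coeFn_smul, Pi.smul_apply, dl_self, smul_eq_mul, mul_one]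
    · intro z _ hz
      rw [lp.coeFn_smul, Pi.smul_apply, dl_ne, smul_zero]
      intro h'; exact hz (Prod.mk.inj h').1.symm
    · intro h'; exact absurd hy h'
  have h1 : ⟪a, dh⟫ = (⟪a, ContinuousLinearMap.adjoint (bd s) f⟫ : ℝ) := by
    rw [inner_eq, inner_eq]
    refine tsum_congr ?_
    rintro ⟨x, i⟩
    by_cases h0 : a (x, i) = 0
    · rw [h0, zero_mul, zero_mul]
    · have hx : x ∈ F := by
        rw [hF, Finset.mem_image]
        exact ⟨(x, i), ha.1.mem_toFinset.2 h0, rfl⟩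
      have hy1 : x ∈ Y := Finset.mem_union_left _ hx
      have hy2 : x * s i ∈ Y := by
        refine Finset.mem_union_right _ (Finset.mem_biUnion.2 ⟨i, Finset.mem_univ i, ?_⟩)
        exact Finset.mem_image_of_mem _ hx
      rw [adjoint_bd, hf _ hy1, hf _ hy2, hd]
  rw [h1, ContinuousLinearMap.adjoint_inner_right, ha.2, inner_zero_left]

theorem bd_har (s : I → G) (h : G → ℝ) (dh : L2 (G × I))
    (hd : ∀ x i, dh (x, i) = h (x * s i) - h x) (hh : Har s h) : bd s dh = 0 := by
  ext ⟨x, w⟩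
  rw [bd_apply, lp.coeFn_zero, Pi.zero_apply, ← neg_eq_zero, ← Finset.sum_neg_distrib]
  refine (Finset.sum_congr rfl fun i _ => ?_).trans (hh x)
  rw [hd, hd, inv_mul_cancel_right]
  ring

end

theorem pf_ORT : T_ORT.{u} := by
  intro G _ I _ s h dh hd
  refine ⟨fun a ha g => ?_, fun hh => ?_, ?_⟩
  · have h1 : ⟪a, lt g dh⟫ = (⟪lt g⁻¹ a, dh⟫ : ℝ) := by
      rw [← inner_lt g (lt g⁻¹ a) dh, ← lt_mul, mul_inv_cancel, lt_one]
    rw [h1]
    exact cf_perp s h dh hd _ (inv_Cf s g⁻¹ a ha)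
  · refine Submodule.span_le.2 ?_
    rintro _ ⟨g, rfl⟩
    rw [SetLike.mem_coe, mem_kr, eqv_bd, bd_har s h dh hd hh, map_zero]
  · intro g v hv
    refine Submodule.span_induction (p := fun v _ => lt g v ∈ Et dh) ?_ ?_ ?_ ?_ hv
    · rintro _ ⟨g', rfl⟩
      rw [← lt_mul]
      exact Submodule.subset_span ⟨g * g', rfl⟩
    · rw [map_zero]; exact Submodule.zero_mem _
    · intro x y _ _ hx hy
      rw [map_add]; exact Submodule.add_mem _ hx hy
    · intro c x _ hx
      rw [map_smul]; exact Submodule.smul_mem _ c hx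

end Pool.Agent.H93.BTL
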